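import Pool.Agent.Helper54.SAW2.Stmts

set_option autoImplicit false

/-!
# Block 4: KappaAS, KappaBS
-/

namespace Pool.Agent.Helper40.SAW2

open Pool.Agent.Helper54.SAW2

theorem refl_le (x : ℕ → ℤ) {t i : ℕ} (h : i ≤ t) : refl x t i = x i := by
  unfold Pool.Agent.Helper54.SAW2.refl
  rw [if_pos h]

theorem refl_gt (x : ℕ → ℤ) {t i : ℕ} (h : t < i) : refl x t i = 2 * x t - x i := by
  unfold Pool.Agent.Helper54.SAW2.refl
  rw [if_neg (by omega)]

theorem dA_spec (c0 : ℕ) (x : ℕ → ℤ) (t : ℕ) (h : 0 < dA c0 x t) :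
    CutA x t (x t - dA c0 x t) ∧ (c0 : ℤ) ≤ x t - dA c0 x t := by
  classical
  have h1 : CutA x t (x t - dA c0 x t) := by
    unfold dA
    exact Nat.findGreatest_of_ne_zero (P := fun d => CutA x t (x t - (d : ℕ))) rfl
      (by unfold dA at h; omega)
  refine ⟨h1, ?_⟩
  have h2 : dA c0 x t ≤ (x t - c0).toNat := by
    unfold dA
    exact Nat.findGreatest_le _
  omega

theorem le_dA (c0 : ℕ) (x : ℕ → ℤ) (t : ℕ) (κ : ℤ) (h : CutA x t κ) (h0 : (c0 : ℤ) ≤ κ)
    (h1 : κ ≤ x t) : x t - κ ≤ dA c0 x t := by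
  classical
  have h2 : (x t - κ).toNat ≤ dA c0 x t := by
    unfold dA
    apply Nat.le_findGreatest
    · omega
    · have : x t - ((x t - κ).toNat : ℤ) = κ := by omega
      rw [this]
      exact h
  omega

theorem dB_spec (c0 : ℕ) (x : ℕ → ℤ) (n t : ℕ) (h : 0 < dB c0 x n t) :
    CutB x n t (x t - dB c0 x n t) ∧ x n + c0 ≤ x t - dB c0 x n t := by
  classical
  have h1 : CutB x n t (x t - dB c0 x n t) := by
    unfold dB
    exact Nat.findGreatest_of_ne_zero (P := fun d => CutB x n t (x t - (d : ℕ))) rfl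
      (by unfold dB at h; omega)
  refine ⟨h1, ?_⟩
  have h2 : dB c0 x n t ≤ (x t - x n - c0).toNat := by
    unfold dB
    exact Nat.findGreatest_le _
  omega

theorem le_dB (c0 : ℕ) (x : ℕ → ℤ) (n t : ℕ) (κ : ℤ) (h : CutB x n t κ) (h0 : x n + c0 ≤ κ)
    (h1 : κ ≤ x t) : x t - κ ≤ dB c0 x n t := by
  classical
  have h2 : (x t - κ).toNat ≤ dB c0 x n t := by
    unfold dB
    apply Nat.le_findGreatest
    · omega
    · have : x t - ((x t - κ).toNat : ℤ) = κ := by omega
      rw [this]
      exact h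
  omega

section

variable {x : ℕ → ℤ} {n p q tp tq : ℕ}

theorem p_le_tp (hpq : p < q) (hq : q ≤ n) (hR : RTog x p) (htp : Tip (refl x p) n tp) :
    p ≤ tp := by
  by_contra hc
  have h1 := htp.2.2 p (by omega) (by omega)
  rw [refl_le x le_rfl, refl_le x (by omega)] at h1
  have h2 := hR tp (by omega)
  omega

theorem p_le_tq (hpq : p < q) (hq : q ≤ n) (hR : RTog x p) (htq : Tip (refl x q) n tq) :
    p ≤ tq := by
  by_contra hc
  have h1 := htq.2.2 p (by omega) (by omega)
  rw [refl_le x (by omega), refl_le x (by omega)] at h1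
  have h2 := hR tq (by omega)
  omega

theorem tq_le_q (hL : LTog x n q) (htq : Tip (refl x q) n tq) : tq ≤ q := by
  by_contra hc
  have h1 := htq.2.1 q (by omega)
  rw [refl_le x le_rfl, refl_gt x (by omega)] at h1
  have h2 := hL tq (by omega) htq.1
  omega

theorem tp_le_q (hpq : p < q) (hL : LTog x n q) (htp : Tip (refl x p) n tp) : tp ≤ q := by
  by_contra hc
  have h1 := htp.2.1 q (by omega)
  rw [refl_gt x hpq, refl_gt x (by omega)] at h1
  have h2 := hL tp (by omega) htp.1
  omega

theorem tip_max {z : ℕ → ℤ} {n t : ℕ} (h : Tip z n t) (i : ℕ) (hi : i ≤ n) : z i ≤ z t := by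
  rcases le_or_gt i t with h1 | h1
  · exact h.2.1 i h1
  · exact (h.2.2 i h1 hi).le

end

theorem kappaA : KappaAS := by
  intro x n p q c0 hpq hq hR hL tp tq htp htq hD
  have hpt := p_le_tp hpq hq hR htp
  have hpt' := p_le_tq hpq hq hR htq
  have hqt := tq_le_q hL htq
  have ha : x p ≤ refl x p tp := by
    have := htp.2.1 p hpt
    rwa [refl_le x le_rfl] at this
  have ha' : x p ≤ refl x q tq := by
    have := htq.2.1 p hpt'
    rwa [refl_le x (by omega)] at this
  have hD0 : 0 < dA c0 (refl x p) tp := by omega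
  obtain ⟨hcut, hc0⟩ := dA_spec c0 (refl x p) tp hD0
  have hκ : ∃ κ, κ = refl x p tp - dA c0 (refl x p) tp := ⟨_, rfl⟩
  obtain ⟨κ, hκ⟩ := hκ
  rw [← hκ] at hcut hc0
  obtain ⟨s, hs, hs1, hs2⟩ := hcut
  have hsp : s < p := by
    by_contra hc
    have := hs1 p (by omega)
    rw [refl_le x le_rfl] at this
    omega
  -- the path after time `s` stays to the right of `κ`
  have hx : ∀ i, s < i → i ≤ n → κ < x i := by
    intro i hi hin
    rcases le_or_gt i p with h | h
    · have := hs2 i hi (by omega)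
      rwa [refl_le x h] at this
    · have := tip_max htp i hin
      rw [refl_gt x h] at this
      omega
  have hcq : CutA (refl x q) tq κ := by
    refine ⟨s, by omega, fun i hi => ?_, fun i hi hi' => ?_⟩
    · have := hs1 i hi
      rw [refl_le x (by omega)] at this
      rwa [refl_le x (by omega)]
    · rw [refl_le x (by omega)]
      exact hx i hi (by omega)
  have h1 := le_dA c0 (refl x q) tq κ hcq hc0 (by omega)
  have hDq : 0 < dA c0 (refl x q) tq := by omega
  obtain ⟨hcut', hc0'⟩ := dA_spec c0 (refl x q) tq hDq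
  have hκ' : ∃ κ', κ' = refl x q tq - dA c0 (refl x q) tq := ⟨_, rfl⟩
  obtain ⟨κ', hκ'⟩ := hκ'
  rw [← hκ'] at hcut' hc0'
  obtain ⟨s', hs', hs1', hs2'⟩ := hcut'
  have hsp' : s' < p := by
    by_contra hc
    have := hs1' p (by omega)
    rw [refl_le x (by omega)] at this
    omega
  have hcp : CutA (refl x p) tp κ' := by
    refine ⟨s', by omega, fun i hi => ?_, fun i hi hi' => ?_⟩
    · have := hs1' i hi
      rw [refl_le x (by omega)] at this
      rwa [refl_le x (by omega)]
    · rcases le_or_gt i p with h | h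
      · have := hs2' i hi (by omega)
        rw [refl_le x (by omega)] at this
        rwa [refl_le x h]
      · have := hs2 i (by omega) hi'
        omega
  have h2 := le_dA c0 (refl x p) tp κ' hcp hc0' (by omega)
  omega

theorem kappaB : KappaBS := by
  intro x n p q c0 hpq hq hR hL tp tq htp htq hD
  have hpt := p_le_tp hpq hq hR htp
  have hqt := tq_le_q hL htq
  have hqt' := tp_le_q hpq hL htp
  have ha : x q ≤ refl x q tq := by
    have := tip_max htq q hq
    rwa [refl_le x le_rfl] at this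
  have ha' : x p ≤ refl x q tq := by
    have := tip_max htq p (by omega)
    rwa [refl_le x (by omega)] at this
  have hD0 : 0 < dB c0 (refl x q) n tq := by omega
  obtain ⟨hcut, hc0⟩ := dB_spec c0 (refl x q) n tq hD0
  have hκ : ∃ κ, κ = refl x q tq - dB c0 (refl x q) n tq := ⟨_, rfl⟩
  obtain ⟨κ, hκ⟩ := hκ
  rw [← hκ] at hcut hc0
  obtain ⟨s, hs, hsn, hs1, hs2⟩ := hcut
  have hsq : q ≤ s := by
    by_contra hc
    have := hs2 q (by omega) hq
    rw [refl_le x le_rfl] at this
    omega
  have hsh : ∀ i, q ≤ i → refl x p i = refl x q i + 2 * (x p - x q) := by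
    intro i hi
    rw [refl_gt x (by omega)]
    rcases hi.eq_or_lt with rfl | h
    · rw [refl_le x le_rfl]; ring
    · rw [refl_gt x h]; ring
  have hn := hsh n hq
  have hcp : CutB (refl x p) n tp (κ + 2 * (x p - x q)) := by
    refine ⟨s, by omega, hsn, fun i hi hi' => ?_, fun i hi hi' => ?_⟩
    · rcases le_or_gt q i with h | h
      · rw [hsh i h]
        have := hs1 i (by omega) hi'
        omega
      · have h3 := tip_max htq i (by omega)
        rw [refl_le x (by omega : i ≤ q)] at h3
        rcases le_or_gt i p with h' | h'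
        · have : i = p := by omega
          subst this
          rw [refl_le x le_rfl]
          omega
        · rw [refl_gt x h']
          omega
    · rw [hsh i (by omega)]
      have := hs2 i hi hi'
      omega
  have h0 : κ + 2 * (x p - x q) ≤ refl x p tp := by
    obtain ⟨s1, a1, a2, a3, a4⟩ := hcp
    exact (a3 tp le_rfl a1).le
  have h1 := le_dB c0 (refl x p) n tp _ hcp (by omega) h0
  have h0' : κ + 2 * (x p - x q) < refl x p tp := by
    obtain ⟨s1, a1, a2, a3, a4⟩ := hcp
    exact a3 tp le_rfl a1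
  have hDp : 0 < dB c0 (refl x p) n tp := by omega
  obtain ⟨hcut', hc0'⟩ := dB_spec c0 (refl x p) n tp hDp
  have hκ' : ∃ κ', κ' = refl x p tp - dB c0 (refl x p) n tp := ⟨_, rfl⟩
  obtain ⟨κ', hκ'⟩ := hκ'
  rw [← hκ'] at hcut' hc0'
  obtain ⟨s', hs', hsn', hs1', hs2'⟩ := hcut'
  have hsq' : q ≤ s' := by
    by_contra hc
    have h3 := hs2' q (by omega) hq
    rw [hsh q le_rfl, refl_le x le_rfl] at h3
    omega
  have hcq : CutB (refl x q) n tq (κ' - 2 * (x p - x q)) := by
    refine ⟨s', by omega, hsn', fun i hi hi' => ?_, fun i hi hi' => ?_⟩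
    · rcases le_or_gt q i with h | h
      · have := hs1' i (by omega) hi'
        rw [hsh i h] at this
        omega
      · have := hs1 i hi (by omega)
        omega
    · have := hs2' i hi hi'
      rw [hsh i (by omega)] at this
      omega
  have h0q : κ' - 2 * (x p - x q) ≤ refl x q tq := by
    obtain ⟨s1, a1, a2, a3, a4⟩ := hcq
    exact (a3 tq le_rfl a1).le
  have h2 := le_dB c0 (refl x q) n tq _ hcq (by omega) h0q
  omega

end Pool.Agent.Helper40.SAW2
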